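import Mathlib

open Finset

namespace Pool.Agent.H.MP_f9323a_an

noncomputable def S (g : ℤ → ℝ) (x : ℤ) (r : ℕ) : ℝ := ∑ k ∈ Icc (x - r) (x + r), g k

lemma S_nonneg {g : ℤ → ℝ} (hg : ∀ k, 0 ≤ g k) (x r) : 0 ≤ S g x r := sum_nonneg fun k _ => hg k
lemma S_mono {g : ℤ → ℝ} (hg : ∀ k, 0 ≤ g k) {x y : ℤ} {r R : ℕ} (h1 : y - R ≤ x - r) (h2 : x + r ≤ y + R) :
    S g x r ≤ S g y R :=
  sum_le_sum_of_subset_of_nonneg (Icc_subset_Icc h1 h2) fun k _ _ => hg k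

lemma card_I (x : ℤ) (r : ℕ) : ((Icc (x - r) (x + r)).card : ℝ) = 2 * r + 1 := by
  rw [Int.card_Icc, show x + r + 1 - (x - r) = ((2 * r + 1 : ℕ) : ℤ) by push_cast; ring, Int.toNat_natCast]
  push_cast; ring

lemma tele (g : ℤ → ℝ) (p : ℤ) (n : ℕ) : |g (p + n) - g p| ≤ ∑ k ∈ Ico p (p + n), |g (k + 1) - g k| := by
  induction n with
  | zero => simp
  | succ n ih =>
    rw [Nat.cast_succ, ← add_assoc, ← Finset.insert_Ico_right_eq_Ico_add_one (by omega), sum_insert (by simp)]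
    linarith [abs_sub_le (g (p + n + 1)) (g (p + n)) (g p)]

lemma osc (g : ℤ → ℝ) {a b p p' : ℤ} (hp : p ∈ Icc a (b + 1)) (hp' : p' ∈ Icc a (b + 1)) :
    g p' - g p ≤ ∑ k ∈ Icc a b, |g (k + 1) - g k| := by
  have key : ∀ {p p' : ℤ}, p ∈ Icc a (b + 1) → p' ∈ Icc a (b + 1) → p ≤ p' →
      |g p' - g p| ≤ ∑ k ∈ Icc a b, |g (k + 1) - g k| := fun {p p'} hp hp' h => by
    obtain ⟨n, rfl⟩ := Int.le.dest h
    rw [mem_Icc] at hp hp'
    refine (tele g p n).trans (sum_le_sum_of_subset_of_nonneg (fun k hk => ?_) fun k _ _ => abs_nonneg _)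
    rw [mem_Ico] at hk; rw [mem_Icc]; omega
  rcases le_total p p' with h | h
  · exact (le_abs_self _).trans (key hp hp' h)
  · have := key hp' hp h
    rw [abs_sub_comm] at this
    exact (le_abs_self _).trans this

structure Good (β : ℝ) (g : ℤ → ℝ) (m x y : ℤ) (r : ℕ) : Prop where
  hx : x = m ∨ x = m + 1
  hy : y = m ∨ y = m + 1
  lt : ∀ ρ : ℕ, (2 * ρ + 1 : ℝ) ^ (β - 1) * S g y ρ ≤ (2 * r + 1 : ℝ) ^ (β - 1) * S g x r

lemma drop {β : ℝ} (hβ : 0 < β) {g : ℤ → ℝ} (hg : ∀ k, 0 ≤ g k) {m x y : ℤ} {r : ℕ} (h : Good β g m x y r) :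
    (1 - 2 ^ (-β)) * (S g x r / (2 * r + 1)) ≤ ∑ k ∈ Icc (m - (2 * r + 1)) (m + (2 * r + 1)), |g (k + 1) - g k| := by
  have l0 : (0 : ℝ) < 2 * r + 1 := by positivity
  obtain ⟨p', hp', h1⟩ : ∃ p' ∈ Icc (x - r) (x + r), S g x r / (2 * r + 1) ≤ g p' := by
    refine exists_le_of_sum_le ⟨x, by simp⟩ (le_of_eq ?_)
    rw [sum_const, nsmul_eq_mul, card_I, mul_div_cancel₀ _ l0.ne', S]
  obtain ⟨p, hp, h2⟩ : ∃ p ∈ Icc (y - (2 * r + 1 : ℕ)) (y + (2 * r + 1 : ℕ)),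
      g p ≤ S g y (2 * r + 1) / (2 * (2 * r + 1 : ℕ) + 1) := by
    refine exists_le_of_sum_le ⟨y, by simp; omega⟩ (le_of_eq ?_)
    rw [sum_const, nsmul_eq_mul, card_I, mul_div_cancel₀ _ (by positivity), S]
  have h3 := h.lt (2 * r + 1)
  push_cast at h2 h3 hp
  set L : ℝ := 2 * (2 * r + 1) + 1 with hL
  have L0 : 0 < L := by positivity
  have h4 : S g y (2 * r + 1) / L ≤ 2 ^ (-β) * (S g x r / (2 * r + 1)) := by
    have e1 : L ^ (-β) ≤ 2 ^ (-β) * (2 * r + 1 : ℝ) ^ (-β) := by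
      rw [← Real.mul_rpow (by norm_num) l0.le]
      exact Real.rpow_le_rpow_of_nonpos (by positivity) (by linarith) (by linarith)
    have s0 := S_nonneg hg x r
    calc _ = L ^ (-β) * (L ^ (β - 1) * S g y (2 * r + 1)) := by
          rw [← mul_assoc, ← Real.rpow_add L0, show -β + (β - 1) = -1 by ring, Real.rpow_neg_one]; ring
      _ ≤ 2 ^ (-β) * (2 * r + 1 : ℝ) ^ (-β) * ((2 * r + 1 : ℝ) ^ (β - 1) * S g x r) := by
          have := S_nonneg hg y (2 * r + 1)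
          gcongr
      _ = _ := by
          rw [mul_assoc, ← mul_assoc ((2 * r + 1 : ℝ) ^ (-β)), ← Real.rpow_add l0, show -β + (β - 1) = -1 by ring,
            Real.rpow_neg_one]; ring
  have h5 := osc g (a := m - (2 * r + 1)) (b := m + (2 * r + 1)) (p := p) (p' := p')
    (by rw [mem_Icc] at hp ⊢; rcases h.hy with rfl | rfl <;> omega)
    (by rw [mem_Icc] at hp' ⊢; rcases h.hx with rfl | rfl <;> omega)
  linarith

lemma nest {β : ℝ} (hβ : 0 < β) (hβ1 : β < 1) {g : ℤ → ℝ} (hg : ∀ k, 0 ≤ g k) {m x y m' x' : ℤ} {r r' : ℕ}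
    (h : Good β g m x y r) (hx' : x' = m' ∨ x' = m' + 1) (hr : r ≤ r') (hm : |m' - m| ≤ (2 * r + 1) + (2 * r' + 1)) :
    S g x' r' / (2 * r' + 1) / (2 * r' + 1) ≤
      63 * (S g x r / (2 * r + 1)) * (2 * r + 1 : ℝ) ^ β * (2 * r + 1 + |((m' - m : ℤ) : ℝ)|) ^ (-β - 1) := by
  have l0 : (0 : ℝ) < 2 * r + 1 := by positivity
  set l : ℝ := 2 * r' + 1 with hl
  have l1 : 0 < l := by positivity
  have h3 := h.lt (3 * (2 * r' + 1))
  push_cast at h3
  rw [← hl] at h3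
  have h1 : S g x' r' ≤ S g y (3 * (2 * r' + 1)) := by
    rw [abs_le] at hm
    refine S_mono hg ?_ ?_ <;> push_cast <;> rcases h.hy with rfl | rfl <;> rcases hx' with rfl | rfl <;> omega
  have l2 : 1 ≤ l := by rw [hl]; linarith [Nat.cast_nonneg (α := ℝ) r']
  have h2 : l ^ (β - 1) / 7 ≤ (2 * (3 * l) + 1) ^ (β - 1) := by
    calc _ = 7 ^ (-1 : ℝ) * l ^ (β - 1) := by rw [Real.rpow_neg_one]; ring
      _ ≤ 7 ^ (β - 1) * l ^ (β - 1) := by gcongr <;> linarith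
      _ = (7 * l) ^ (β - 1) := (Real.mul_rpow (by norm_num) l1.le).symm
      _ ≤ _ := Real.rpow_le_rpow_of_nonpos (by positivity) (by linarith) (by linarith)
  have s0 := S_nonneg hg x' r'
  have s1 := S_nonneg hg x r
  have h4 : l ^ (β - 1) / 7 * S g x' r' ≤ (2 * r + 1 : ℝ) ^ (β - 1) * S g x r :=
    le_trans (mul_le_mul h2 h1 s0 (by positivity)) h3
  have hm' : |((m' - m : ℤ) : ℝ)| ≤ (2 * r + 1) + l := by rw [hl]; exact_mod_cast hm
  have hr' : (r : ℝ) ≤ r' := by exact_mod_cast hr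
  have h5 : l ^ (-β - 1) ≤ 9 * (2 * r + 1 + |((m' - m : ℤ) : ℝ)|) ^ (-β - 1) := by
    calc l ^ (-β - 1) = 9 * (3 ^ (-2 : ℝ) * l ^ (-β - 1)) := by
          rw [Real.rpow_neg (by norm_num), Real.rpow_two]; ring
      _ ≤ 9 * (3 ^ (-β - 1) * l ^ (-β - 1)) := by gcongr <;> linarith
      _ = 9 * (3 * l) ^ (-β - 1) := by rw [Real.mul_rpow (by norm_num) l1.le]
      _ ≤ _ := by
          gcongr 9 * ?_
          exact Real.rpow_le_rpow_of_nonpos (by positivity) (by linarith) (by linarith)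
  calc _ = 7 * (l ^ (β - 1) / 7 * S g x' r') * l ^ (-β - 1) := by
        have : l ^ (β - 1) * l ^ (-β - 1) = (l ^ 2)⁻¹ := by
          rw [← Real.rpow_add l1, show β - 1 + (-β - 1) = -2 by ring, Real.rpow_neg l1.le, Real.rpow_two]
        field_simp at this ⊢
        linear_combination (-S g x' r') * this
    _ ≤ 7 * ((2 * r + 1 : ℝ) ^ (β - 1) * S g x r) * (9 * (2 * r + 1 + |((m' - m : ℤ) : ℝ)|) ^ (-β - 1)) := by gcongr
    _ = _ := by rw [Real.rpow_sub_one l0.ne']; ring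

lemma step {β t : ℝ} (hβ : 0 < β) (ht : 0 < t) : β * (t + 1) ^ (-β - 1) ≤ t ^ (-β) - (t + 1) ^ (-β) := by
  obtain ⟨c, hc, e⟩ := exists_hasDerivAt_eq_slope (fun s : ℝ => s ^ (-β)) (fun s => -β * s ^ (-β - 1)) (lt_add_one t)
    (fun s hs => (Real.hasDerivAt_rpow_const (Or.inl (by linarith [hs.1]))).continuousAt.continuousWithinAt)
    (fun s hs => Real.hasDerivAt_rpow_const (Or.inl (by linarith [hs.1])))
  have : (t + 1) ^ (-β - 1) ≤ c ^ (-β - 1) :=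
    Real.rpow_le_rpow_of_nonpos (by linarith [hc.1]) hc.2.le (by linarith)
  rw [add_sub_cancel_left, div_one] at e
  nlinarith

lemma tail {β l : ℝ} (hβ : 0 < β) (hl : 1 ≤ l) (m : ℤ) (F : Finset ℤ) :
    ∑ m' ∈ F, (l + |((m' - m : ℤ) : ℝ)|) ^ (-β - 1) ≤ (1 + 2 / β) * l ^ (-β) := by
  have key : ∀ N : ℕ, ∑ m' ∈ Icc (m - N) (m + N), (l + |((m' - m : ℤ) : ℝ)|) ^ (-β - 1) ≤
      (1 + 2 / β) * l ^ (-β) - 2 / β * (l + N) ^ (-β) := fun N => by
    induction N with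
    | zero =>
      have : l ^ (-β - 1) ≤ l ^ (-β) := Real.rpow_le_rpow_of_exponent_le hl (by linarith)
      simp only [Nat.cast_zero, sub_zero, add_zero, Icc_self, sum_singleton, sub_self, Int.cast_zero, abs_zero]
      linarith
    | succ N ih =>
      have e : Icc (m - (N + 1 : ℕ)) (m + (N + 1 : ℕ)) = insert (m - (N + 1)) (insert (m + (N + 1)) (Icc (m - N) (m + N))) := by
        ext k; simp only [mem_Icc, mem_insert]; push_cast; omega
      rw [e, sum_insert (by simp only [mem_Icc, mem_insert]; omega), sum_insert (by simp only [mem_Icc]; omega)]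
      have a1 : |((m - (N + 1) - m : ℤ) : ℝ)| = N + 1 := by
        push_cast; rw [abs_of_nonpos (by linarith [Nat.cast_nonneg (α := ℝ) N])]; ring
      have a2 : |((m + (N + 1) - m : ℤ) : ℝ)| = N + 1 := by
        push_cast; rw [abs_of_nonneg (by linarith [Nat.cast_nonneg (α := ℝ) N])]; ring
      have := step hβ (t := l + N) (by positivity)
      have h2 := mul_le_mul_of_nonneg_left this (show 0 ≤ 2 / β by positivity)
      rw [← mul_assoc, div_mul_cancel₀ _ hβ.ne'] at h2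
      rw [a1, a2, Nat.cast_succ, ← add_assoc l]
      linarith
  obtain ⟨N, hN⟩ : ∃ N : ℕ, F ⊆ Icc (m - N) (m + N) := by
    refine ⟨F.sup fun k => (k - m).natAbs, fun k hk => ?_⟩
    have := le_sup (f := fun k => (k - m).natAbs) hk
    rw [mem_Icc]; omega
  refine (sum_le_sum_of_subset_of_nonneg hN fun k _ _ => by positivity).trans ((key N).trans ?_)
  have : 0 ≤ 2 / β * (l + N) ^ (-β) := by positivity
  linarith

lemma cover {β : ℝ} (hβ : 0 < β) (hβ1 : β < 1) {g : ℤ → ℝ} (hg : ∀ k, 0 ≤ g k) (x y : ℤ → ℤ) (r : ℤ → ℕ)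
    (F : Finset ℤ) (hF : ∀ m ∈ F, Good β g m (x m) (y m) (r m)) :
    (1 - 2 ^ (-β)) * ∑ m ∈ F, S g (x m) (r m) / (2 * r m + 1) / (2 * r m + 1) ≤ 63 * (1 + 2 / β) *
      ∑ k ∈ F.biUnion fun m => Icc (m - (2 * r m + 1)) (m + (2 * r m + 1)), |g (k + 1) - g k| := by
  have c0 : (0 : ℝ) ≤ 1 - 2 ^ (-β) := sub_nonneg.2 (Real.rpow_le_one_of_one_le_of_nonpos (by norm_num) (by linarith))
  induction F using Finset.strongInduction with
  | H F ih =>
  rcases F.eq_empty_or_nonempty with rfl | hne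
  · simp
  obtain ⟨m, hm, hmin⟩ := exists_min_image F r hne
  let P : ℤ → Prop := fun m' => |m' - m| ≤ (2 * r m + 1) + (2 * r m' + 1)
  have i1 := ih (F.filter fun m' => ¬P m') (filter_ssubset.2 ⟨m, hm, by simp only [P, not_not, sub_self, abs_zero]; omega⟩)
    fun k hk => hF k (mem_filter.1 hk).1
  have l1 : (1 : ℝ) ≤ 2 * r m + 1 := by linarith [Nat.cast_nonneg (α := ℝ) (r m)]
  have s0 := S_nonneg hg (x m) (r m)
  have i2 : ∑ m' ∈ F.filter P, S g (x m') (r m') / (2 * r m' + 1) / (2 * r m' + 1) ≤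
      63 * (1 + 2 / β) * (S g (x m) (r m) / (2 * r m + 1)) := by
    calc _ ≤ ∑ m' ∈ F.filter P, 63 * (S g (x m) (r m) / (2 * r m + 1)) * (2 * r m + 1 : ℝ) ^ β *
          (2 * r m + 1 + |((m' - m : ℤ) : ℝ)|) ^ (-β - 1) := sum_le_sum fun m' hm' =>
          nest hβ hβ1 hg (hF m hm) (hF m' (mem_filter.1 hm').1).hx (hmin m' (mem_filter.1 hm').1) (mem_filter.1 hm').2
      _ ≤ 63 * (S g (x m) (r m) / (2 * r m + 1)) * (2 * r m + 1 : ℝ) ^ β * ((1 + 2 / β) * (2 * r m + 1 : ℝ) ^ (-β)) := by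
          rw [← mul_sum]
          exact mul_le_mul_of_nonneg_left (tail hβ l1 m _) (by positivity)
      _ = _ := by rw [Real.rpow_neg (by linarith)]; field_simp
  have i3 := drop hβ hg (hF m hm)
  have i4 : ∑ k ∈ Icc (m - (2 * r m + 1)) (m + (2 * r m + 1)), |g (k + 1) - g k| +
      ∑ k ∈ (F.filter fun m' => ¬P m').biUnion fun m => Icc (m - (2 * r m + 1)) (m + (2 * r m + 1)), |g (k + 1) - g k| ≤
      ∑ k ∈ F.biUnion fun m => Icc (m - (2 * r m + 1)) (m + (2 * r m + 1)), |g (k + 1) - g k| := by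
    rw [← sum_union]
    · refine sum_le_sum_of_subset_of_nonneg (union_subset
        (subset_biUnion_of_mem (fun m => Icc (m - (2 * r m + 1)) (m + (2 * r m + 1))) hm)
        (biUnion_subset_biUnion_of_subset_left _ (filter_subset _ _))) fun k _ _ => abs_nonneg _
    · rw [disjoint_biUnion_right]
      intro m' hm'
      have := (mem_filter.1 hm').2
      simp only [P, abs_le, not_and_or, not_le] at this
      rw [disjoint_left]
      intro k h1 h2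
      rw [mem_Icc] at h1 h2
      omega
  rw [← sum_filter_add_sum_filter_not F P, mul_add]
  have K0 : 0 ≤ 63 * (1 + 2 / β) := by positivity
  nlinarith [mul_le_mul_of_nonneg_left i2 c0, mul_le_mul_of_nonneg_left i3 K0, mul_le_mul_of_nonneg_left i4 K0]

lemma shift {β : ℝ} (hβ : 0 < β) {g : ℤ → ℝ} (hg : ∀ k, 0 ≤ g k) {x y : ℤ} (r : ℕ) (h : y = x + 1 ∨ x = y + 1) :
    (2 * r + 1 : ℝ) ^ (β - 1) * S g x r * ((2 * r + 1) / (2 * r + 3)) ≤
      (2 * (r + 1 : ℕ) + 1 : ℝ) ^ (β - 1) * S g y (r + 1) := by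
  have h1 : S g x r ≤ S g y (r + 1) := by
    refine S_mono hg ?_ ?_ <;> push_cast <;> omega
  have l0 : (0 : ℝ) < 2 * r + 1 := by positivity
  have h2 : (2 * r + 1 : ℝ) ^ (β - 1) * ((2 * r + 1) / (2 * r + 3)) ≤ (2 * (r + 1 : ℕ) + 1 : ℝ) ^ (β - 1) := by
    rw [Real.rpow_sub_one l0.ne', Real.rpow_sub_one (by positivity), div_mul_div_cancel₀ l0.ne']
    push_cast
    rw [show (2 * (r + 1) + 1 : ℝ) = 2 * r + 3 by ring]
    gcongr; linarith
  have := S_nonneg hg x r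
  calc _ = (2 * r + 1 : ℝ) ^ (β - 1) * ((2 * r + 1) / (2 * r + 3)) * S g x r := by ring
    _ ≤ _ := mul_le_mul h2 h1 this (by positivity)

lemma bdd {β : ℝ} (hβ : 0 < β) {g : ℤ → ℝ} (hg : ∀ k, 0 ≤ g k) {n : ℤ}
    (h : BddAbove (Set.range fun r : ℕ => (2 * r + 1 : ℝ) ^ (β - 1) * S g n r)) (m : ℤ) :
    BddAbove (Set.range fun r : ℕ => (2 * r + 1 : ℝ) ^ (β - 1) * S g m r) := by
  have st : ∀ x y : ℤ, (y = x + 1 ∨ x = y + 1) → BddAbove (Set.range fun r : ℕ => (2 * r + 1 : ℝ) ^ (β - 1) * S g y r) →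
      BddAbove (Set.range fun r : ℕ => (2 * r + 1 : ℝ) ^ (β - 1) * S g x r) := by
    rintro x y hxy ⟨B, hB⟩
    refine ⟨3 * B, ?_⟩
    rintro _ ⟨r, rfl⟩
    have h1 := (shift hβ hg r hxy).trans (hB ⟨r + 1, rfl⟩)
    have h2 : (1 / 3 : ℝ) ≤ (2 * r + 1) / (2 * r + 3) := by
      rw [div_le_div_iff₀ (by norm_num) (by positivity)]; linarith [Nat.cast_nonneg (α := ℝ) r]
    have h3 : 0 ≤ (2 * r + 1 : ℝ) ^ (β - 1) * S g x r := mul_nonneg (by positivity) (S_nonneg hg x r)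
    simp only
    nlinarith
  exact Int.inductionOn' (motive := fun m => BddAbove (Set.range fun r : ℕ => (2 * r + 1 : ℝ) ^ (β - 1) * S g m r))
    m n h (fun k _ ih => st _ _ (Or.inr rfl) ih) fun k _ ih => st _ _ (Or.inl (by ring)) ih

lemma pick {β : ℝ} (hβ : 0 < β) {g : ℤ → ℝ} (hg : ∀ k, 0 ≤ g k)
    (hb : ∀ m, BddAbove (Set.range fun r : ℕ => (2 * r + 1 : ℝ) ^ (β - 1) * S g m r)) (M : ℤ → ℝ)
    (hM : ∀ m, M m = ⨆ r : ℕ, (2 * r + 1 : ℝ) ^ (β - 1) * S g m r) (m : ℤ) : ∃ x y r, M (m + 1) ≠ M m →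
    Good β g m x y r ∧ |M (m + 1) - M m| ≤ 4 * (S g x r / (2 * r + 1)) * (2 * r + 1 : ℝ) ^ (β - 1) := by
  have st : ∀ x y : ℤ, (y = x + 1 ∨ x = y + 1) → M y < M x → ∃ r : ℕ,
      (∀ ρ : ℕ, (2 * ρ + 1 : ℝ) ^ (β - 1) * S g y ρ ≤ (2 * r + 1 : ℝ) ^ (β - 1) * S g x r) ∧
      M x - M y ≤ 4 * (S g x r / (2 * r + 1)) * (2 * r + 1 : ℝ) ^ (β - 1) := fun x y hxy h => by
    obtain ⟨r, hr⟩ := exists_lt_of_lt_ciSup (show (M x + M y) / 2 < ⨆ r : ℕ, (2 * r + 1 : ℝ) ^ (β - 1) * S g x r by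
      rw [← hM]; linarith)
    have hy : ∀ ρ : ℕ, (2 * ρ + 1 : ℝ) ^ (β - 1) * S g y ρ ≤ M y := fun ρ => by rw [hM]; exact le_ciSup (hb y) ρ
    refine ⟨r, fun ρ => by linarith [hy ρ], ?_⟩
    have h1 := (shift hβ hg r hxy).trans (hy (r + 1))
    have h3 : 0 ≤ (2 * r + 1 : ℝ) ^ (β - 1) * S g x r := mul_nonneg (by positivity) (S_nonneg hg x r)
    have h2 : 1 - 2 / (2 * r + 1 : ℝ) ≤ (2 * r + 1) / (2 * r + 3) := by
      rw [one_sub_div (by positivity), div_le_div_iff₀ (by positivity) (by positivity)]; nlinarith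
    have h4 := mul_le_mul_of_nonneg_left h2 h3
    have e : 4 * (S g x r / (2 * r + 1)) * (2 * r + 1 : ℝ) ^ (β - 1) =
      2 * ((2 * r + 1 : ℝ) ^ (β - 1) * S g x r * (2 / (2 * r + 1))) := by ring
    rw [e]; linarith
  rcases lt_trichotomy (M (m + 1)) (M m) with h | h | h
  · obtain ⟨r, h1, h2⟩ := st m (m + 1) (Or.inl rfl) h
    exact ⟨m, m + 1, r, fun _ => ⟨⟨Or.inl rfl, Or.inr rfl, h1⟩, by rw [abs_of_neg (by linarith)]; linarith⟩⟩
  · exact ⟨0, 0, 0, fun h' => absurd h h'⟩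
  · obtain ⟨r, h1, h2⟩ := st (m + 1) m (Or.inr rfl) h
    exact ⟨m + 1, m, r, fun _ => ⟨⟨Or.inr rfl, Or.inl rfl, h1⟩, by rw [abs_of_pos (by linarith)]; linarith⟩⟩

lemma main {β q V : ℝ} (hβ : 0 < β) (hβ1 : β < 1) (hq : q = 1 / (1 - β)) {g : ℤ → ℝ} (hg : ∀ k, 0 ≤ g k)
    (hV : ∀ F : Finset ℤ, ∑ k ∈ F, |g (k + 1) - g k| ≤ V)
    (hb : ∀ m, BddAbove (Set.range fun r : ℕ => (2 * r + 1 : ℝ) ^ (β - 1) * S g m r)) (M : ℤ → ℝ)
    (hM : ∀ m, M m = ⨆ r : ℕ, (2 * r + 1 : ℝ) ^ (β - 1) * S g m r) (F : Finset ℤ) :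
    ∑ m ∈ F, |M (m + 1) - M m| ^ q ≤ (252 * (1 + 2 / β) / (1 - 2 ^ (-β)) * V) ^ q := by
  choose x y r h using pick hβ hg hb M hM
  have q1 : 1 < q := by rw [hq, lt_div_iff₀ (by linarith)]; linarith
  have c0 : (0 : ℝ) < 1 - 2 ^ (-β) := sub_pos.2 (Real.rpow_lt_one_of_one_lt_of_neg (by norm_num) (by linarith))
  set c : ℝ := 1 - 2 ^ (-β) with hc
  have V0 : 0 ≤ V := by simpa using hV ∅
  rw [← sum_filter_of_ne (p := fun m => M (m + 1) ≠ M m) fun m _ hm e => hm (by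
    rw [e, sub_self, abs_zero, Real.zero_rpow (by linarith)])]
  set G := F.filter fun m => M (m + 1) ≠ M m
  have hG : ∀ m ∈ G, _ := fun m hm => h m (mem_filter.1 hm).2
  have i1 := (cover hβ hβ1 hg x y r G fun m hm => (hG m hm).1).trans
    (mul_le_mul_of_nonneg_left (hV _) (by positivity))
  have K1 : 1 ≤ 63 * (1 + 2 / β) := by
    have : 0 < 2 / β := by positivity
    linarith
  set K := 63 * (1 + 2 / β) with hK
  calc _ ≤ ∑ m ∈ G, 4 ^ q * (V / c) ^ (q - 1) * (S g (x m) (r m) / (2 * r m + 1) / (2 * r m + 1)) := by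
        refine sum_le_sum fun m hm => ?_
        have l0 : (0 : ℝ) < 2 * r m + 1 := by positivity
        have s0 : 0 ≤ S g (x m) (r m) / (2 * r m + 1) := div_nonneg (S_nonneg hg _ _) l0.le
        have a1 : S g (x m) (r m) / (2 * r m + 1) ≤ V / c := by
          rw [le_div_iff₀ c0, mul_comm]; exact (drop hβ hg (hG m hm).1).trans (hV _)
        have a2 := (hG m hm).2
        set a := S g (x m) (r m) / (2 * r m + 1)
        calc _ ≤ (4 * a * (2 * r m + 1 : ℝ) ^ (β - 1)) ^ q := by gcongr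
          _ = 4 ^ q * a ^ (q - 1) * (a / (2 * r m + 1)) := by
            rw [Real.mul_rpow (by positivity) (by positivity), Real.mul_rpow (by norm_num) s0, ← Real.rpow_mul l0.le,
              show (β - 1) * q = -1 by rw [hq]; field_simp [(show 1 - β ≠ 0 by linarith)]; ring, Real.rpow_neg_one,
              show a ^ q = a ^ (q - 1) * a by rw [← Real.rpow_add_one' s0 (by linarith), sub_add_cancel]]
            ring
          _ ≤ _ := by gcongr
    _ ≤ 4 ^ q * (V / c) ^ (q - 1) * (K * (V / c)) := by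
        rw [← mul_sum]
        gcongr
        rw [← mul_div_assoc, le_div_iff₀ c0, mul_comm]; exact i1
    _ = 4 ^ q * K * (V / c) ^ q := by
        rw [show (V / c) ^ q = (V / c) ^ (q - 1) * (V / c) by
          rw [← Real.rpow_add_one' (by positivity) (by linarith), sub_add_cancel]]
        ring
    _ ≤ 4 ^ q * K ^ q * (V / c) ^ q := by
        gcongr
        exact Real.self_le_rpow_of_one_le K1 q1.le
    _ = _ := by
        rw [← Real.mul_rpow (by norm_num) (by positivity), ← Real.mul_rpow (by positivity) (by positivity), hK]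
        congr 1; ring

end Pool.Agent.H.MP_f9323a_an
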